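import Pool.Agent.Helper44.CM.StmtsB5
import Pool.Agent.Helper71.MM.Basic

/-!
Project MM, block B5, row COEF: the coefficient of a solution is admissible.
-/

open CM

namespace Helper73.MM

variable {n : ℕ}

theorem quad_eq (M : Mt n) (v : Fin n → ℝ) :
    ∑ i, ∑ j, v i * M i j * v j = ∑ i, v i * (M.mulVec v) i := by
  refine Finset.sum_congr rfl fun i _ => ?_
  simp only [Matrix.mulVec, dotProduct, Finset.mul_sum]
  exact Finset.sum_congr rfl fun j _ => by ring

theorem isUnit_det_of_LB {c : ℝ} (hc : 0 < c) {G : Mt n} (hG : LB c G) : IsUnit G.det := by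
  rw [isUnit_iff_ne_zero]
  intro h0
  obtain ⟨v, hv, hGv⟩ := Matrix.exists_mulVec_eq_zero_iff.2 h0
  have h1 := hG v
  rw [quad_eq, hGv] at h1
  simp only [Pi.zero_apply, mul_zero, Finset.sum_const_zero] at h1
  have h2 : ∑ i, v i ^ 2 ≤ 0 := by
    by_contra hne
    push Not at hne
    have := mul_pos hc hne
    linarith
  apply hv
  funext i
  have h3 : v i ^ 2 ≤ ∑ i, v i ^ 2 :=
    Finset.single_le_sum (f := fun i => v i ^ 2) (fun i _ => sq_nonneg _) (Finset.mem_univ i)
  have h4 : v i ^ 2 = 0 := le_antisymm (h3.trans h2) (sq_nonneg _)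
  simpa using h4

theorem inv_mul_of_LB {c : ℝ} (hc : 0 < c) {G : Mt n} (hG : LB c G) : G⁻¹ * G = 1 :=
  Matrix.nonsing_inv_mul G (isUnit_det_of_LB hc hG)

theorem mul_inv_of_LB {c : ℝ} (hc : 0 < c) {G : Mt n} (hG : LB c G) : G * G⁻¹ = 1 :=
  Matrix.mul_nonsing_inv G (isUnit_det_of_LB hc hG)

/-- the Euclidean norm of a column of the inverse -/
theorem col_inv_bound {c : ℝ} (hc : 0 < c) {G : Mt n} (hG : LB c G) (j : Fin n) :
    ∑ i, (G⁻¹ i j) ^ 2 ≤ 1 / c ^ 2 := by
  have h1 := hG (fun i => G⁻¹ i j)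
  rw [quad_eq] at h1
  have h2 : ∀ i, (G.mulVec (fun i => G⁻¹ i j)) i = (1 : Mt n) i j := by
    intro i
    rw [← mul_inv_of_LB hc hG, Matrix.mul_apply]
    rfl
  simp only [h2, Matrix.one_apply, mul_ite, mul_one, mul_zero, Finset.sum_ite_eq',
    Finset.mem_univ, if_true] at h1
  set S := ∑ i, (G⁻¹ i j) ^ 2 with hS
  have h3 : (G⁻¹ j j) ^ 2 ≤ S :=
    Finset.single_le_sum (f := fun i => (G⁻¹ i j) ^ 2) (fun i _ => sq_nonneg _) (Finset.mem_univ j)
  have hS0 : 0 ≤ S := Finset.sum_nonneg fun i _ => sq_nonneg _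
  rw [le_div_iff₀ (by positivity)]
  have h4 : (c * S) ^ 2 ≤ S := by
    calc (c * S) ^ 2 ≤ (G⁻¹ j j) ^ 2 := by
          apply pow_le_pow_left₀ (by positivity) h1
      _ ≤ S := h3
  by_contra hne
  push Not at hne
  nlinarith [mul_pos hc hc]

theorem entry_inv_bound {c : ℝ} (hc : 0 < c) {G : Mt n} (hG : LB c G) (i j : Fin n) :
    |G⁻¹ i j| ≤ 1 / c := by
  have h1 := col_inv_bound hc hG j
  have h2 : (G⁻¹ i j) ^ 2 ≤ ∑ i, (G⁻¹ i j) ^ 2 :=
    Finset.single_le_sum (f := fun i => (G⁻¹ i j) ^ 2) (fun i _ => sq_nonneg _) (Finset.mem_univ i)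
  apply abs_le_of_sq_le_sq _ (by positivity)
  rw [div_pow, one_pow]
  exact h2.trans h1

theorem LB_inv {c K : ℝ} (hc : 0 < c) {G : Mt n} (hG : LB c G)
    (hK : ∀ i j, |G i j| ≤ K) : LB (c / ((n * K) ^ 2 + 1)) G⁻¹ := by
  intro v
  set w := G⁻¹.mulVec v with hw
  have hGw : G.mulVec w = v := by
    rw [hw, Matrix.mulVec_mulVec, mul_inv_of_LB hc hG, Matrix.one_mulVec]
  have h1 := hG w
  rw [quad_eq, hGw] at h1
  rw [quad_eq, ← hw]
  have h2 : ∑ i, v i ^ 2 ≤ (n * K) ^ 2 * ∑ i, w i ^ 2 := by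
    have h3 : ∀ i, v i ^ 2 ≤ (n * K ^ 2) * ∑ j, w j ^ 2 := by
      intro i
      have h4 : v i = ∑ j, G i j * w j := by
        rw [← hGw]; rfl
      rw [h4]
      refine (Finset.sum_mul_sq_le_sq_mul_sq Finset.univ (fun j => G i j) w).trans ?_
      apply mul_le_mul_of_nonneg_right _ (Finset.sum_nonneg fun _ _ => sq_nonneg _)
      calc ∑ j, G i j ^ 2 ≤ ∑ _j : Fin n, K ^ 2 := by
            apply Finset.sum_le_sum
            intro j _
            exact sq_le_sq' (abs_le.1 (hK i j)).1 (abs_le.1 (hK i j)).2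
        _ = n * K ^ 2 := by simp
    calc ∑ i, v i ^ 2 ≤ ∑ _i : Fin n, (n * K ^ 2) * ∑ j, w j ^ 2 :=
          Finset.sum_le_sum fun i _ => h3 i
      _ = (n * K) ^ 2 * ∑ i, w i ^ 2 := by
          simp only [Finset.sum_const, Finset.card_univ, Fintype.card_fin, nsmul_eq_mul]
          ring
  have h5 : ∑ i, v i * w i = ∑ i, w i * v i := Finset.sum_congr rfl fun i _ => mul_comm _ _
  rw [h5]
  refine le_trans ?_ h1
  have hW : 0 ≤ ∑ i, w i ^ 2 := Finset.sum_nonneg fun _ _ => sq_nonneg _
  have hpos : 0 < (n * K) ^ 2 + 1 := by positivity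
  rw [div_mul_eq_mul_div, div_le_iff₀ hpos]
  nlinarith [mul_le_mul_of_nonneg_left h2 hc.le, mul_nonneg hc.le hW]

theorem abs_coord_le (v : E n) (i : Fin n) : |v i| ≤ ‖v‖ := by
  have := EuclideanSpace.norm_eq v
  rw [this]
  apply Real.le_sqrt_of_sq_le
  rw [sq_abs]
  have h := Finset.single_le_sum (f := fun i => ‖v i‖ ^ 2) (fun i _ => sq_nonneg _)
    (Finset.mem_univ i)
  simpa using h

/-- a function with partial derivatives bounded by `K` is Lipschitz with constant `n K` -/
theorem lip_of_pd {f : E n → ℝ} {K : ℝ} (hf : Differentiable ℝ f) (hK : ∀ x i, |pd i f x| ≤ K)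
    (x y : E n) : |f x - f y| ≤ n * K * dist x y := by
  have hb : ∀ z ∈ (Set.univ : Set (E n)), ‖fderiv ℝ f z‖ ≤ n * |K| := by
    intro z _
    apply ContinuousLinearMap.opNorm_le_bound _ (by positivity)
    intro v
    rw [Helper71.MM.fderiv_eq_sum]
    refine (Finset.abs_sum_le_sum_abs _ _).trans ?_
    calc ∑ i, |v i * pd i f z| ≤ ∑ _i : Fin n, |K| * ‖v‖ := by
          apply Finset.sum_le_sum
          intro i _
          rw [abs_mul, mul_comm]
          apply mul_le_mul ((hK z i).trans (le_abs_self K)) (abs_coord_le v i) (abs_nonneg _)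
            (abs_nonneg _)
      _ = n * |K| * ‖v‖ := by simp [mul_assoc]
  have h := Convex.norm_image_sub_le_of_norm_fderiv_le (𝕜 := ℝ) (fun z _ => hf z) hb
    convex_univ (Set.mem_univ y) (Set.mem_univ x)
  rw [Real.norm_eq_abs] at h
  rcases Nat.eq_zero_or_pos n with h0 | h0
  · subst h0
    simpa using h
  · have hK0 : 0 ≤ K := (abs_nonneg _).trans (hK x ⟨0, h0⟩)
    rw [abs_of_nonneg hK0] at h
    rw [dist_eq_norm]
    exact h

theorem st_COEF : ST_COEF := by
  intro n c K hc
  set K' : ℝ := 1 + 1 / c + ((n * K) ^ 2 + 1) / c + n ^ 3 * |K| / c ^ 2 + n * |K| / c with hK'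
  have hp1 : 0 ≤ 1 / c := by positivity
  have hp2 : 0 ≤ ((n * K) ^ 2 + 1) / c := by positivity
  have hp3 : 0 ≤ n ^ 3 * |K| / c ^ 2 := by positivity
  have hp4 : 0 ≤ n * |K| / c := by positivity
  have hK1 : 1 ≤ K' := by linarith
  refine ⟨K', ?_⟩
  intro V hV hlo hbd h3 hfar
  have hsymm : ∀ x, (hess V x).IsSymm := by
    intro x
    ext i j
    exact Helper71.MM.hess_symm (hV.of_le (by norm_num)) x j i
  have hent : ∀ x i j, |tau V x i j| ≤ 1 / c := fun x i j => entry_inv_bound hc (hlo x) i j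
  refine ⟨hK1, ?_, ?_, ?_, ?_, ?_⟩
  · intro x
    show ((hess V x)⁻¹).transpose = (hess V x)⁻¹
    rw [Matrix.transpose_nonsing_inv, (hsymm x).eq]
  · intro x v
    have h := LB_inv hc (hlo x) (hbd x) v
    refine le_trans ?_ h
    apply mul_le_mul_of_nonneg_right _ (Finset.sum_nonneg fun _ _ => sq_nonneg _)
    have h5 : ((n * K) ^ 2 + 1) / c ≤ K' := by linarith
    have h6 : (K')⁻¹ ≤ (((n * K) ^ 2 + 1) / c)⁻¹ := by
      apply inv_anti₀ (by positivity) h5
    rwa [inv_div] at h6
  · intro x i j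
    exact (hent x i j).trans (by linarith)
  · intro x y i j
    have hdiff : tau V x - tau V y = tau V x * (hess V y - hess V x) * tau V y := by
      show (hess V x)⁻¹ - (hess V y)⁻¹ = (hess V x)⁻¹ * (hess V y - hess V x) * (hess V y)⁻¹
      rw [Matrix.mul_sub, Matrix.sub_mul, inv_mul_of_LB hc (hlo x), Matrix.mul_assoc,
        mul_inv_of_LB hc (hlo y), Matrix.one_mul, Matrix.mul_one]
    have hlip : ∀ a b, |hess V y a b - hess V x a b| ≤ n * |K| * dist x y := by
      intro a b
      have hd : Differentiable ℝ (pd a (pd b V)) := by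
        apply Helper71.MM.differentiable_of (m := 1) _ le_rfl
        apply Helper71.MM.contDiff_pd (k := 1) (m := 2) _ (by norm_num)
        apply Helper71.MM.contDiff_pd (k := 2) (m := 3) hV (by norm_num)
      have := lip_of_pd hd (K := |K|) (fun z i => (h3 z [i, a, b] rfl).trans (le_abs_self K)) y x
      rw [dist_comm y x] at this
      exact this
    have hE : tau V x i j - tau V y i j =
        ∑ b, (∑ a, tau V x i a * (hess V y a b - hess V x a b)) * tau V y b j := by
      have := congrFun (congrFun hdiff i) j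
      rw [Matrix.sub_apply] at this
      rw [this, Matrix.mul_apply]
      refine Finset.sum_congr rfl fun b _ => ?_
      rw [Matrix.mul_apply]
      rfl
    rw [hE]
    calc |∑ b, (∑ a, tau V x i a * (hess V y a b - hess V x a b)) * tau V y b j|
        ≤ ∑ _b : Fin n, (∑ _a : Fin n, 1 / c * (n * |K| * dist x y)) * (1 / c) := by
          refine (Finset.abs_sum_le_sum_abs _ _).trans (Finset.sum_le_sum fun b _ => ?_)
          rw [abs_mul]
          apply mul_le_mul _ (hent y b j) (abs_nonneg _) (by positivity)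
          refine (Finset.abs_sum_le_sum_abs _ _).trans (Finset.sum_le_sum fun a _ => ?_)
          rw [abs_mul]
          exact mul_le_mul (hent x i a) (hlip a b) (abs_nonneg _) (by positivity)
      _ = n ^ 3 * |K| / c ^ 2 * dist x y := by
          simp only [Finset.sum_const, Finset.card_univ, Fintype.card_fin, nsmul_eq_mul]
          field_simp
      _ ≤ K' * dist x y := by
          apply mul_le_mul_of_nonneg_right _ dist_nonneg
          linarith
  · intro x i j
    have hdiff : tau V x - 1 = tau V x * (1 - hess V x) := by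
      show (hess V x)⁻¹ - 1 = (hess V x)⁻¹ * (1 - hess V x)
      rw [Matrix.mul_sub, inv_mul_of_LB hc (hlo x), Matrix.mul_one]
    have hE : tau V x i j - (1 : Mt n) i j =
        ∑ a, tau V x i a * ((1 : Mt n) a j - hess V x a j) := by
      have := congrFun (congrFun hdiff i) j
      rw [Matrix.sub_apply] at this
      rw [this, Matrix.mul_apply]
      rfl
    rw [hE]
    have hs : 0 < Real.sqrt (1 + ‖x‖) := Real.sqrt_pos.2 (by positivity)
    calc |∑ a, tau V x i a * ((1 : Mt n) a j - hess V x a j)|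
        ≤ ∑ _a : Fin n, 1 / c * (|K| / Real.sqrt (1 + ‖x‖)) := by
          refine (Finset.abs_sum_le_sum_abs _ _).trans (Finset.sum_le_sum fun a _ => ?_)
          rw [abs_mul]
          apply mul_le_mul (hent x i a) _ (abs_nonneg _) (by positivity)
          rw [abs_sub_comm]
          refine (hfar x a j).trans ?_
          exact div_le_div_of_nonneg_right (le_abs_self K) hs.le
      _ = (n * |K| / c) / Real.sqrt (1 + ‖x‖) := by
          simp only [Finset.sum_const, Finset.card_univ, Fintype.card_fin, nsmul_eq_mul]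
          ring
      _ ≤ K' / Real.sqrt (1 + ‖x‖) := by
          apply div_le_div_of_nonneg_right _ hs.le
          linarith

end Helper73.MM
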